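import Pool.Agent.X242.UW7
import Pool.Agent.X242.UW8

/-!
# Deligne's period conjecture for the twists of an abelian variety and explicit elements of the rational group ring

Let `A/ℚ` be an abelian variety, `F` an abelian field of conductor `𝔣`, `G = Gal(F/ℚ)`, `c(n) = σ_n|_F` in `G` for the `n`
prime to `𝔣`. Let `a_n` be the Dirichlet coefficients of the Euler product of `A` over the primes not dividing `𝔣` (integers,
`a_n = 0` if `n` is not prime to `𝔣`), so that `L_C(A, ψ, z) = ∑ ψ(c(n)) a_n n^{-z}` for `Re z > 3/2` and all characters `ψ`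
of `G`. Everything is proved for all rational numbers `a_n` and maps `c` for which the series converge absolutely for
`Re z > 2` and continue to functions which are meromorphic at the points of the segment `[1, 2]` and holomorphic at `1`.

Fix `γ > π/2` and rational numbers `ρ_N(n)`, for every `N` almost all of them zero, with
`|ρ_N(n) - Re (e^{iγ log n / N} / Γ(1 + log n / N))| ≤ 1 / (N n²)`. They exist, and depend on nothing. Put

`X_N = ∑_n ρ_N(n) (a_n / n) c(n) ∈ ℚ[G]`, a finite sum.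

1. `ψ(X_N) = L_C(A, ψ, 1) + O(1/N)` for all `ψ`: the same elements of `ℚ[G]` for all characters.
2. Let `κ(ψ)` be any complex numbers (in the problem `κ(ψ) = τ*(ψ⁻¹)^d / Ω_A^+`, so that
   `κ(ψ) L_C(A, ψ, 1) = ℒ_C(A, ψ)`). The following are equivalent: (a) there is a `u ∈ ℚ[G]` with
   `ψ(u) = κ(ψ) L_C(A, ψ, 1)` for all `ψ` (this is (i) and (ii) of Q1 for all `ψ`); (b) for some `M ≥ 1` the coefficients of
   `M ∑_ψ κ(ψ) ψ(X_N) e_ψ` come simultaneously arbitrarily close to integers for arbitrarily large `N`; (c) there is a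
   `u ∈ ℚ[G]` with `κ(ψ) ψ(X_N) → ψ(u)` for all `ψ`.
3. If the `κ(ψ)` and the `L_C(A, ψ, 1)` are nonzero, they are equivalent to: there is a `u ∈ ℚ[G]`, invertible, with
   `κ(ψ)⁻¹ = lim ψ(u X_N)` for all `ψ`: the vector of the periods `Ω_A^+ / τ*(ψ⁻¹)^d` is the limit of the elements `u X_N`
   of `ℚ[G]`.
-/

set_option autoImplicit false

open Filter Topology Asymptotics

namespace Pool.Agent.Results.MP_21281f_nt.RationalGroupRingElements

open Pool.Agent.X242.DR Pool.Agent.X242.GRA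

section

variable {G : Type} [CommGroup G] [Fintype G]

/-- `Λ` is the continuation of `L(ψ, z) = ∑ ψ(c(n)) a_n n^{-z}`. -/
structure IsL (a : ℕ → ℚ) (c : ℕ → G) (ψ : Character G) (Λ : ℂ → ℂ) : Prop where
  summable : ∀ s : ℂ, 2 < s.re → LSeriesSummable (fun n => value ψ (c n) * (a n : ℂ)) s
  eq : ∀ s : ℂ, 2 < s.re → Λ s = LSeries (fun n => value ψ (c n) * (a n : ℂ)) s
  mero : ∀ x : ℝ, 1 ≤ x → x ≤ 2 → MeromorphicAt Λ (x : ℂ)
  an : AnalyticAt ℂ Λ 1

/-- `X_N = ∑ ρ_N(n) (a_n / n) c(n)`, for `ρ = ρ_N` -/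
noncomputable def element (a : ℕ → ℚ) (c : ℕ → G) (ρ : ℕ →₀ ℚ) : MonoidAlgebra ℚ G :=
  ρ.sum fun n q => MonoidAlgebra.single (c n) (q * (a n / n))

theorem ev_element (a : ℕ → ℚ) (c : ℕ → G) (ρ : ℕ →₀ ℚ) (ψ : Character G) :
    ev ψ (element a c ρ) = comb ρ fun n => value ψ (c n) * (a n : ℂ) / n := by
  unfold element comb Finsupp.sum
  rw [map_sum]
  refine Finset.sum_congr rfl fun n _ => ?_
  rw [ev_single]
  push_cast
  ring

theorem C_zero (γ : ℝ) : Ck 0 γ = 1 := by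
  unfold Ck
  simp [HH]

/-- **The law.** -/
theorem law {a : ℕ → ℚ} {c : ℕ → G} (ha : a 0 = 0) {ψ : Character G} {Λ : ℂ → ℂ} (h : IsL a c ψ Λ) {γ : ℝ}
    (hγ : Real.pi / 2 < γ) {ρ : ℕ → ℕ →₀ ℚ} (hρ : IsRational 0 γ ρ) :
    (fun N : ℕ => ev ψ (element a c (ρ N)) - Λ 1) =O[atTop] (fun N : ℕ => 1 / (N : ℝ)) := by
  set b : ℕ → ℂ := fun n => value ψ (c n) * (a n : ℂ) / n with hb
  have hterm : ∀ (s : ℂ) (n : ℕ), LSeries.term b s n =
      LSeries.term (fun n => value ψ (c n) * (a n : ℂ)) (s + 1) n := by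
    intro s n
    rcases Nat.eq_zero_or_pos n with rfl | hn
    · rw [LSeries.term_zero, LSeries.term_zero]
    · have hn0 : (n : ℂ) ≠ 0 := by exact_mod_cast hn.ne'
      rw [LSeries.term_of_ne_zero hn.ne', LSeries.term_of_ne_zero hn.ne', Complex.cpow_add _ _ hn0,
        Complex.cpow_one, hb]
      simp only
      rw [div_div, mul_comm ((n : ℂ) ^ s)]
  have hre : ∀ s : ℂ, 1 < s.re → 2 < (s + 1).re := by
    intro s hs1
    rw [Complex.add_re, Complex.one_re]
    linarith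
  have hS : IsSeries b (fun s => Λ (s + 1)) := by
    refine ⟨fun σ hσ => ?_, fun s hs1 => ?_, fun x hx0 hx1 => ?_⟩
    · exact (summable_congr fun n => hterm _ n).2 (h.summable ((σ : ℂ) + 1) (hre _ (by simpa using hσ)))
    · show Λ (s + 1) = LSeries b s
      rw [h.eq _ (hre s hs1)]
      unfold LSeries
      exact tsum_congr fun n => (hterm s n).symm
    · have h1 := h.mero (x + 1) (by linarith) (by linarith)
      have e : (((x + 1 : ℝ)) : ℂ) = (x : ℂ) + 1 := by push_cast; ring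
      rw [e] at h1
      have h2 : AnalyticAt ℂ (fun s : ℂ => s + 1) (x : ℂ) := by fun_prop
      exact MeromorphicAt.comp_analyticAt (g := fun s : ℂ => s + 1) h1 h2
  have hA : AnalyticAt ℂ (fun s : ℂ => Λ (s + 1)) 0 := by
    have h2 : AnalyticAt ℂ (fun s : ℂ => s + 1) (0 : ℂ) := by fun_prop
    exact AnalyticAt.comp_of_eq (f := fun s : ℂ => s + 1) h.an h2 (by rw [zero_add])
  have hθ : Tendsto (fun s : ℂ => (fun s : ℂ => Λ (s + 1)) s / s ^ 0) (𝓝[≠] 0) (𝓝 (Λ 1)) := by
    have h5 := hA.continuousAt.tendsto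
    rw [zero_add] at h5
    refine (h5.mono_left nhdsWithin_le_nhds).congr fun s => ?_
    simp only [pow_zero, div_one]
  have h1 := hS.universal (by simp [hb, ha]) 0 (Λ 1) hγ (by rw [C_zero]; exact one_ne_zero)
    (bigO_of_lim hA hθ) hρ
  refine h1.congr_left fun N => ?_
  rw [ev_element]

/-- (i) and (ii) of Q1 for all characters: the numbers `ℒ(ψ)` are the components of an element of `ℚ[G]`. -/
def IsRationalFamily (ℒ : Character G → ℂ) : Prop := ∃ u : MonoidAlgebra ℚ G, ∀ ψ, ℒ ψ = ev ψ u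

end

/-- **Deligne's conjecture for the twists and explicit elements of `ℚ[G]`.** -/
theorem result :
    -- 0. the weights exist
    (∀ γ : ℝ, ∃ ρ, IsRational 0 γ ρ) ∧
    ∀ γ : ℝ, Real.pi / 2 < γ → ∀ ρ : ℕ → ℕ →₀ ℚ, IsRational 0 γ ρ →
    ∀ (G : Type) [CommGroup G] [Fintype G] (a : ℕ → ℚ) (c : ℕ → G), a 0 = 0 →
    ∀ Λ : Character G → ℂ → ℂ, (∀ ψ, IsL a c ψ (Λ ψ)) →
    -- 1. the values
    (∀ ψ : Character G, (fun N : ℕ => ev ψ (element a c (ρ N)) - Λ ψ 1) =O[atTop]
      fun N : ℕ => 1 / (N : ℝ)) ∧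
    ∀ κ : Character G → ℂ,
    -- 2. the conjecture
    (IsRationalFamily (fun ψ => κ ψ * Λ ψ 1) ↔
      ∃ M : ℕ, 1 ≤ M ∧ ∀ ε > 0, ∀ N₀ : ℕ, ∃ N ≥ N₀, ∃ n : G → ℤ, ∀ g,
        ‖M * coef (fun ψ => κ ψ * ev ψ (element a c (ρ N))) g - n g‖ < ε) ∧
    (IsRationalFamily (fun ψ => κ ψ * Λ ψ 1) ↔ ∃ u : MonoidAlgebra ℚ G, ∀ ψ,
      Tendsto (fun N => κ ψ * ev ψ (element a c (ρ N))) atTop (𝓝 (ev ψ u))) ∧
    -- 3. nonvanishing values
    ((∀ ψ, κ ψ ≠ 0) → (∀ ψ, Λ ψ 1 ≠ 0) →
      (IsRationalFamily (fun ψ => κ ψ * Λ ψ 1) ↔ ∃ u : MonoidAlgebra ℚ G, (∀ ψ, ev ψ u ≠ 0) ∧ ∀ ψ,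
        Tendsto (fun N => ev ψ (u * element a c (ρ N))) atTop (𝓝 (κ ψ)⁻¹))) := by
  refine ⟨fun γ => exists_rational 0 γ, ?_⟩
  intro γ hγ ρ hρ G _ _ a c ha Λ hΛ
  have h1 := fun ψ : Character G => law ha (hΛ ψ) hγ hρ
  have hlim : ∀ ψ : Character G, Tendsto (fun N : ℕ => ev ψ (element a c (ρ N))) atTop (𝓝 (Λ ψ 1)) := by
    intro ψ
    have h4 := (h1 ψ).trans_tendsto tendsto_one_div_atTop_nhds_zero_nat
    have h5 := h4.add_const (Λ ψ 1)
    simpa using h5
  refine ⟨h1, fun κ => ⟨?_, ⟨?_, ?_⟩, fun hκ hL => ?_⟩⟩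
  · unfold IsRationalFamily
    rw [rational_iff]
    refine integral_iff (a := fun N ψ => κ ψ * ev ψ (element a c (ρ N))) fun ψ => ?_
    refine ((h1 ψ).const_mul_left (κ ψ)).congr_left fun N => ?_
    ring
  · rintro ⟨u, hu⟩
    refine ⟨u, fun ψ => ?_⟩
    rw [← hu ψ]
    exact (hlim ψ).const_mul _
  · rintro ⟨u, hu⟩
    exact ⟨u, fun ψ => tendsto_nhds_unique ((hlim ψ).const_mul _) (hu ψ)⟩
  · -- inverses in `ℚ[G]`
    have hinv : ∀ u : MonoidAlgebra ℚ G, (∀ ψ, ev ψ u ≠ 0) →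
        ∃ v : MonoidAlgebra ℚ G, ∀ ψ, ev ψ v = (ev ψ u)⁻¹ := by
      intro u hu
      -- multiplication by `u` is injective, hence surjective
      have hinj : Function.Injective (LinearMap.mulLeft ℚ u) := by
        intro x y hxy
        have h2 : u * x = u * y := hxy
        obtain ⟨x', rfl⟩ := exists_elem x
        obtain ⟨y', rfl⟩ := exists_elem y
        congr 1
        funext g
        have h3 : ∀ ψ : Character G, (∑ h, (x' h : ℂ) * value ψ h) = ∑ h, (y' h : ℂ) * value ψ h := by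
          intro ψ
          rw [← ev_elem, ← ev_elem]
          have h4 := congrArg (ev ψ) h2
          rw [map_mul, map_mul] at h4
          exact mul_left_cancel₀ (hu ψ) h4
        have h5 : (x' g : ℂ) = y' g := by
          rw [← coef_sum (fun h => (x' h : ℂ)) g, ← coef_sum (fun h => (y' h : ℂ)) g]
          congr 1
          funext ψ
          exact h3 ψ
        exact_mod_cast h5
      have hfin : FiniteDimensional ℚ (MonoidAlgebra ℚ G) := by
        have hsp : Submodule.span ℚ (Set.range fun g : G => (MonoidAlgebra.single g (1 : ℚ))) = ⊤ := by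
          rw [eq_top_iff]
          rintro x -
          obtain ⟨x', rfl⟩ := exists_elem x
          unfold elem
          refine Submodule.sum_mem _ fun g _ => ?_
          have e : MonoidAlgebra.single g (x' g) = x' g • MonoidAlgebra.single g (1 : ℚ) := by
            rw [MonoidAlgebra.smul_single, smul_eq_mul, mul_one]
          rw [e]
          exact Submodule.smul_mem _ _ (Submodule.subset_span ⟨g, rfl⟩)
        exact ⟨Submodule.fg_def.2 ⟨_, Set.finite_range _, hsp⟩⟩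
      obtain ⟨v, hv⟩ := (LinearMap.injective_iff_surjective.1 hinj) 1
      refine ⟨v, fun ψ => ?_⟩
      have h2 : u * v = 1 := hv
      have h3 := congrArg (ev ψ) h2
      rw [map_mul, map_one] at h3
      exact eq_inv_of_mul_eq_one_right h3
    constructor
    · rintro ⟨u, hu⟩
      obtain ⟨v, hv⟩ := hinv u fun ψ => by
        rw [← hu ψ]
        exact mul_ne_zero (hκ ψ) (hL ψ)
      refine ⟨v, fun ψ => ?_, fun ψ => ?_⟩
      · rw [hv ψ, ← hu ψ]
        exact inv_ne_zero (mul_ne_zero (hκ ψ) (hL ψ))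
      · have h2 := (hlim ψ).const_mul (ev ψ v)
        have h3 : ev ψ v * Λ ψ 1 = (κ ψ)⁻¹ := by
          rw [hv ψ, ← hu ψ, mul_inv, mul_assoc, inv_mul_cancel₀ (hL ψ), mul_one]
        rw [h3] at h2
        refine h2.congr fun N => ?_
        rw [map_mul]
    · rintro ⟨u, hu0, hu⟩
      obtain ⟨v, hv⟩ := hinv u hu0
      refine ⟨v, fun ψ => ?_⟩
      have h2 := hu ψ
      simp only [map_mul] at h2
      have h3 := tendsto_nhds_unique h2 ((hlim ψ).const_mul _)
      rw [hv ψ]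
      have h4 : κ ψ * (ev ψ u * Λ ψ 1) = 1 := by
        rw [← h3]
        exact mul_inv_cancel₀ (hκ ψ)
      have h5 := hu0 ψ
      field_simp
      linear_combination h4

end Pool.Agent.Results.MP_21281f_nt.RationalGroupRingElements
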