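import Pool.Agent.X298.ST.Ab
import Mathlib.Data.ZMod.Units

/-!
# Deligne's period conjecture for all twists of an abelian variety by the characters of an abelian field, in the group ring

Let `F ⊂ ℚ(ζ_N)` be the abelian field belonging to a subgroup `H` of `(ℤ/N)ˣ`, `G = (ℤ/N)ˣ / H = Gal(F/ℚ)` (in the problem `F` is
totally real, that is `-1 ∈ H`, and tamely ramified; this is not needed), and let `A` be an abelian variety of dimension
`δ` over `ℚ`: used are for the primes `p ∤ N` the numbers `α_{p,1}, …, α_{p,2δ}` with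
`P_p(A, t) = ∏_i (1 - α_{p,i} t)`, `|α_{p,i}| ≤ p^{1/2}` (at bad primes some of them are `0` or of absolute value `1`). For a
character `ψ` of `G`

`L(A, ψ, s) = ∏_{p ∤ N} ∏_i (1 - ψ(p) α_{p,i} p^{-s})⁻¹`,  `Re s > 3/2`,

is assumed to continue to a function meromorphic at the points of `[1, 3/2]` and holomorphic at `1`. With the Gauss sum
`τ*(ψ) = ∑_{a ∈ (ℤ/N)ˣ} ψ(a) e^{2πia/N}` and a number `Ω ≠ 0` (the period `Ω_A^+`) put
`𝓛(ψ) = τ*(ψ⁻¹)^δ L(A, ψ, 1) / Ω`. Deligne's conjecture (all `ψ`): `𝓛(ψ) ∈ ℚ(ψ)` and `g(𝓛(ψ)) = 𝓛(gψ)`; in the form used here: for a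
number field `E` containing the roots of unity of order `|G|` and every `ψ : G → Eˣ` there is a `y ∈ E` such that
`𝓛(τψ) = τ(y)` for all embeddings `τ : E → ℂ`.

NO hypothesis on zeros is made. Fix `γ > π/2`. For `h ∈ G` and `T > 0` let

`S_h(T) = - ∑_{p ∤ N, k ≥ 1, p^k ∈ h} (∑_i α_{p,i}^k) p^{-k} exp(iγk log p / T) / (k Γ(1 + k log p / T))`,

an absolutely convergent sum over the prime powers in the class `h`, and let

`θ_g(T) = |G|^{-1} ∑_ψ ψ(g)^{-1} τ*(ψ⁻¹)^δ exp(-∑_h ψ(h) S_h(T)) / Ω`,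

that is the coefficient of `g` of the element `(∑_a e^{2πia/N} a^{-1})^δ exp(-∑_h S_h(T) h) / Ω` of the group ring `ℂ[G]`.

1. `exp(-∑_h ψ(h) S_h(T)) = L(A, ψ, 1) + O(1/T)` for all `ψ`.
2. Deligne's conjecture for all the characters `ψ` of `G` holds if and only if there is an `N' ≥ 1` such that for
   arbitrarily large `T` ALL the numbers `N' θ_g(T)`, `g ∈ G`, come arbitrarily close to rational integers; and if and only if
   there are an `N' ≥ 1` and rational integers `z_g` with `N' θ_g(T) = z_g + O(1/T)` for all `g`. Characters with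
   `L(A, ψ, 1) = 0` are included.
3. For the class of `1` alone: `Re S_1(T) / log T` converges to `|G|^{-1} ∑_ψ ord_{s=1} L(A, ψ, s)`, and
   `L(A, ψ, 1) ≠ 0` for ALL characters `ψ` of `G` if and only if `Re S_1(T)` is bounded above as `T → ∞`.

Proof: the rotated law `Pool.Agent.X287.CR`, Fourier analysis on `G`, Galois theory (an element all of whose conjugates
agree is rational), discreteness of `ℤ`.
-/

set_option autoImplicit false

open Filter Topology Asymptotics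

namespace Pool.Agent.Results.MP_21281f_nt.RationalityInGroupRing

open Pool.Agent.X298.ST

/-- The primes which do not divide `N`. -/
abbrev Pr (N : ℕ) : Type := {p : Nat.Primes // ¬ (p : ℕ) ∣ N}

/-- `G = (ℤ/N)ˣ / H`. -/
def Gr (N : ℕ) (H : Subgroup (ZMod N)ˣ) : Type := (ZMod N)ˣ ⧸ H

noncomputable instance (N : ℕ) (H : Subgroup (ZMod N)ˣ) : CommGroup (Gr N H) :=
  inferInstanceAs (CommGroup ((ZMod N)ˣ ⧸ H))

instance (N : ℕ) [NeZero N] (H : Subgroup (ZMod N)ˣ) : Finite (Gr N H) :=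
  inferInstanceAs (Finite ((ZMod N)ˣ ⧸ H))

/-- The class of a unit modulo `N` in `G`. -/
noncomputable def toGr (N : ℕ) (H : Subgroup (ZMod N)ˣ) (a : (ZMod N)ˣ) : Gr N H :=
  (QuotientGroup.mk a : (ZMod N)ˣ ⧸ H)

/-- The class of a prime in `G`. -/
noncomputable def cls (N : ℕ) (H : Subgroup (ZMod N)ˣ) (p : Pr N) : Gr N H :=
  toGr N H (ZMod.unitOfCoprime (p.1 : ℕ) ((Nat.Prime.coprime_iff_not_dvd p.1.2).2 p.2))

/-- The Gauss sum `τ*(ψ)`. -/
noncomputable def gauss (N : ℕ) (H : Subgroup (ZMod N)ˣ) (ψ : Gr N H →* ℂ) : ℂ :=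
  ∑ᶠ a : (ZMod N)ˣ, ψ (toGr N H a) *
    Complex.exp (2 * Real.pi * Complex.I * ((a : ZMod N).val : ℂ) / (N : ℂ))

/-- The inverse character. -/
noncomputable def inv (N : ℕ) (H : Subgroup (ZMod N)ˣ) (ψ : Gr N H →* ℂ) : Gr N H →* ℂ where
  toFun g := ψ g⁻¹
  map_one' := by rw [inv_one, map_one]
  map_mul' a b := by rw [mul_inv, map_mul]

/-- `L` is `L(A, ψ, s)`: the Euler product for `Re s > 3/2`, continued to a function meromorphic at the points of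
`[1, 3/2]` and holomorphic at `1`. -/
structure IsL (N : ℕ) (H : Subgroup (ZMod N)ˣ) {d : ℕ} (α : Pr N → Fin d → ℂ) (ψ : Gr N H →* ℂ)
    (L : ℂ → ℂ) : Prop where
  prod : ∀ s : ℂ, 3 / 2 < s.re →
    HasProd (fun p : Pr N => ∏ i, (1 - ψ (cls N H p) * α p i * ((p.1 : ℕ) : ℂ) ^ (-s))⁻¹) (L s)
  mero : ∀ x : ℝ, 1 ≤ x → x ≤ 3 / 2 → MeromorphicAt L (x : ℂ)
  holo : AnalyticAt ℂ L 1

/-- The summand `- (∑_i α_{p,i}^k) p^{-k} e^{iγk log p / T} / (k Γ(1 + k log p / T))`, `p = x.1`, `k = x.2 + 1`. -/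
noncomputable def term {N d : ℕ} (α : Pr N → Fin d → ℂ) (γ T : ℝ) (x : Pr N × ℕ) : ℂ :=
  -(∑ i, α x.1 i ^ (x.2 + 1)) * ((((x.1.1 : ℕ) : ℂ))⁻¹) ^ (x.2 + 1) *
      Complex.exp ((γ * ((x.2 + 1) * Real.log (x.1.1 : ℕ) / T) : ℝ) * Complex.I) /
    (((x.2 + 1) * Real.Gamma (1 + (x.2 + 1) * Real.log (x.1.1 : ℕ) / T) : ℝ) : ℂ)

/-- `S_h(T)`: the sum over the prime powers in the class `h`. -/
noncomputable def S (N : ℕ) (H : Subgroup (ZMod N)ˣ) {d : ℕ} (α : Pr N → Fin d → ℂ) (γ T : ℝ)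
    (h : Gr N H) : ℂ :=
  ∑' x : Pr N × ℕ, Set.indicator {x : Pr N × ℕ | cls N H x.1 ^ (x.2 + 1) = h} (term α γ T) x

/-- `𝓛(ψ) = τ*(ψ⁻¹)^δ L(A, ψ, 1) / Ω`. -/
noncomputable def algPart (N : ℕ) (H : Subgroup (ZMod N)ˣ) (δ : ℕ) (Ω : ℂ) (L : (Gr N H →* ℂ) → ℂ → ℂ)
    (ψ : Gr N H →* ℂ) : ℂ := gauss N H (inv N H ψ) ^ δ * L ψ 1 / Ω

/-- `θ_g(T)`. -/
noncomputable def theta (N : ℕ) (H : Subgroup (ZMod N)ˣ) {d : ℕ} (α : Pr N → Fin d → ℂ) (δ : ℕ) (Ω : ℂ)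
    (γ T : ℝ) (g : Gr N H) : ℂ :=
  (∑ᶠ ψ : Gr N H →* ℂ, ψ g⁻¹ *
    (gauss N H (inv N H ψ) ^ δ * Complex.exp (-∑ᶠ h : Gr N H, ψ h * S N H α γ T h) / Ω)) /
      Nat.card (Gr N H)

open Pool.Agent.X287.CR in
theorem csys (N : ℕ) {d : ℕ} (α : Pr N → Fin d → ℂ)
    (hα : ∀ p i, ‖α p i‖ ≤ ((p.1 : ℕ) : ℝ) ^ (1 / 2 : ℝ)) :
    CSys (1 / 2) (fun p : Pr N => (p.1 : ℕ)) α where
  cnt := inferInstance
  two_le := fun p => p.1.2.two_le
  sum := fun σ hσ => by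
    have h1 : Summable fun p : Nat.Primes => ((p : ℕ) : ℝ) ^ (-σ) :=
      Nat.Primes.summable_rpow.2 (by linarith)
    exact h1.comp_injective Subtype.val_injective
  le := hα

open Pool.Agent.X287.CR in
theorem tm_eq {N d : ℕ} (α : Pr N → Fin d → ℂ) (γ T : ℝ) (x : Pr N × ℕ) :
    tm (fun p : Pr N => (p.1 : ℕ)) α 1 γ T x = term α γ T x := by
  unfold tm term lam
  have h0 : ((x.1.1 : ℕ) : ℝ) ≠ 0 := by
    have := x.1.1.2.pos
    exact_mod_cast this.ne'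
  have e2 : Complex.exp (-(1 * (((x.2 + 1) * Real.log ((x.1.1 : ℕ) : ℝ) : ℝ) : ℂ))) =
      ((((x.1.1 : ℕ) : ℂ))⁻¹) ^ (x.2 + 1) := by
    have h1 : ((((x.1.1 : ℕ) : ℂ))⁻¹) = Complex.exp (-(Real.log ((x.1.1 : ℕ) : ℝ) : ℂ)) := by
      rw [Complex.exp_neg, ← Complex.ofReal_exp, Real.exp_log (by exact_mod_cast x.1.1.2.pos)]
      push_cast
      rfl
    rw [h1, ← Complex.exp_nat_mul]
    congr 1
    push_cast
    ring
  rw [e2]

/-- **Deligne's period conjecture for the twists of an abelian variety, in the group ring.** -/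
theorem result (N : ℕ) [NeZero N] (H : Subgroup (ZMod N)ˣ) (δ : ℕ) (α : Pr N → Fin (2 * δ) → ℂ)
    (hα : ∀ p i, ‖α p i‖ ≤ ((p.1 : ℕ) : ℝ) ^ (1 / 2 : ℝ)) (L : (Gr N H →* ℂ) → ℂ → ℂ)
    (hL : ∀ ψ, IsL N H α ψ (L ψ)) (Ω : ℂ) (hΩ : Ω ≠ 0) (γ : ℝ) (hγ : Real.pi / 2 < γ) :
    -- absolute convergence
    (∀ (h : Gr N H) (T : ℝ), 0 < T → Summable fun x : Pr N × ℕ =>
      ‖Set.indicator {x : Pr N × ℕ | cls N H x.1 ^ (x.2 + 1) = h} (term α γ T) x‖) ∧
    -- 1. the values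
    (∀ ψ : Gr N H →* ℂ, (fun T : ℝ => Complex.exp (-∑ᶠ h : Gr N H, ψ h * S N H α γ T h) - L ψ 1)
      =O[atTop] (fun T : ℝ => 1 / T)) ∧
    -- 2. Deligne's conjecture for all the characters
    (∀ (E : Type) [Field E] [NumberField E] (ζ : E), IsPrimitiveRoot ζ (Nat.card (Gr N H)) →
      ((∀ ψ : Gr N H →* E, ∃ y : E, ∀ τ : E →+* ℂ,
          algPart N H δ Ω L ((τ : E →* ℂ).comp ψ) = τ y) ↔
        ∃ N' : ℕ, 1 ≤ N' ∧ ∀ ε : ℝ, 0 < ε → ∀ T₀ : ℝ, ∃ T ≥ T₀, ∀ g : Gr N H,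
          ∃ z : ℤ, ‖N' * theta N H α δ Ω γ T g - z‖ < ε) ∧
      ((∀ ψ : Gr N H →* E, ∃ y : E, ∀ τ : E →+* ℂ,
          algPart N H δ Ω L ((τ : E →* ℂ).comp ψ) = τ y) ↔
        ∃ N' : ℕ, 1 ≤ N' ∧ ∃ (z : Gr N H → ℤ) (C T₀ : ℝ), ∀ T ≥ T₀, ∀ g : Gr N H,
          ‖N' * theta N H α δ Ω γ T g - z g‖ ≤ C / T)) ∧
    -- 3. non-vanishing of all the values
    (∃ m : (Gr N H →* ℂ) → ℤ, (∀ ψ, meromorphicOrderAt (L ψ) 1 = m ψ) ∧
      Tendsto (fun T : ℝ => (S N H α γ T 1).re / Real.log T) atTop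
        (𝓝 ((∑ᶠ ψ, (m ψ : ℝ)) / Nat.card (Gr N H)))) ∧
    ((∀ ψ, L ψ 1 ≠ 0) ↔ ∃ C : ℝ, ∀ᶠ T : ℝ in atTop, (S N H α γ T 1).re ≤ C) := by
  classical
  have := Fintype.ofFinite (Gr N H)
  have := Fintype.ofFinite (Gr N H →* ℂ)
  have hG := csys N α hα
  have hs : (1 / 2 : ℝ) ≤ (1 : ℂ).re := by rw [Complex.one_re]; norm_num
  have hS : ∀ (T : ℝ) (h : Gr N H), SG (fun p : Pr N => (p.1 : ℕ)) α (cls N H) 1 γ T h = S N H α γ T h := by
    intro T h
    unfold SG S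
    have h1 : Pool.Agent.X287.CR.tm (fun p : Pr N => (p.1 : ℕ)) α 1 γ T = term α γ T := by
      funext x
      exact tm_eq α γ T x
    rw [h1]
  have hsum : ∀ (ψ : Gr N H →* ℂ) (T : ℝ), 0 < T →
      Pool.Agent.X287.CR.Su (fun p : Pr N => (p.1 : ℕ)) (fun p i => ψ (cls N H p) * α p i) 1 γ T =
        ∑ᶠ h : Gr N H, ψ h * S N H α γ T h := by
    intro ψ T hT
    rw [SG_sum hG hs (cls N H) ψ γ hT]
    simp only [hS]
  -- the law
  have hlaw : ∀ ψ : Gr N H →* ℂ, ∃ (m : ℤ) (r₀ : ℂ), meromorphicOrderAt (L ψ) 1 = m ∧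
      meromorphicTrailingCoeffAt (L ψ) 1 = Complex.exp r₀ ∧
      Pool.Agent.X287.CR.Asy (Lambda γ) (Pool.Agent.X287.CR.Su (fun p : Pr N => (p.1 : ℕ))
        (fun p i => ψ (cls N H p) * α p i) 1 γ) m r₀ := by
    intro ψ
    have G2 := twist_csys hG (cls N H) ψ
    obtain ⟨m, r₀, h1, h2, h3⟩ := G2.law (L := L ψ) (fun s hs => (hL ψ).prod s (by linarith)) hs
      (fun x hx0 hx1 => by
        have h4 := (hL ψ).mero (1 + x) (by linarith) (by
          rw [Complex.one_re] at hx1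
          linarith)
        push_cast at h4
        exact h4) hγ
    exact ⟨m, r₀, h1, h2, h3⟩
  choose m r₀ h1 h2 h3 using hlaw
  have hval : ∀ ψ : Gr N H →* ℂ, (fun T : ℝ =>
      Complex.exp (-∑ᶠ h : Gr N H, ψ h * S N H α γ T h) - L ψ 1) =O[atTop] (fun T : ℝ => 1 / T) := by
    intro ψ
    have h4 := exp_value (hL ψ).holo (h1 ψ) (h2 ψ) (h3 ψ)
    refine h4.congr' ?_ EventuallyEq.rfl
    filter_upwards [eventually_gt_atTop (0 : ℝ)] with T hT
    rw [hsum ψ T hT]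
  refine ⟨fun h T hT => ?_, hval, fun E _ _ ζ hζ => ?_, ?_, ?_⟩
  · have h4 := (SG_summable hG hs (cls N H) γ hT h).norm
    have h5 : Pool.Agent.X287.CR.tm (fun p : Pr N => (p.1 : ℕ)) α 1 γ T = term α γ T := by
      funext x
      exact tm_eq α γ T x
    rw [h5] at h4
    exact h4
  · have hrate : ∀ g : Gr N H, (fun T : ℝ => theta N H α δ Ω γ T g - coeff (algPart N H δ Ω L) g)
        =O[atTop] (fun T : ℝ => 1 / T) := by
      intro g
      have e1 : (fun T : ℝ => theta N H α δ Ω γ T g - coeff (algPart N H δ Ω L) g) =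
          fun T : ℝ => ∑ ψ : Gr N H →* ℂ, (ψ g⁻¹ * gauss N H (inv N H ψ) ^ δ / Ω / Nat.card (Gr N H)) *
            (Complex.exp (-∑ᶠ h : Gr N H, ψ h * S N H α γ T h) - L ψ 1) := by
        funext T
        unfold theta coeff algPart
        rw [finsum_eq_sum_of_fintype, finsum_eq_sum_of_fintype, ← sub_div, ← Finset.sum_sub_distrib,
          Finset.sum_div]
        refine Finset.sum_congr rfl fun ψ _ => ?_
        ring
      rw [e1]
      exact IsBigO.fun_sum fun ψ _ => (hval ψ).const_mul_left _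
    have h4 := rational_iff hζ (algPart N H δ Ω L)
    have h5 := latticeZ hrate
    exact ⟨h4.trans h5.1, h4.trans h5.2⟩
  · refine ⟨m, h1, ?_⟩
    have h4 : Tendsto (fun T : ℝ => (∑ ψ : Gr N H →* ℂ,
        (Pool.Agent.X287.CR.Su (fun p : Pr N => (p.1 : ℕ)) (fun p i => ψ (cls N H p) * α p i) 1 γ T).re /
          Real.log T) / Nat.card (Gr N H)) atTop (𝓝 ((∑ ψ, (m ψ : ℝ)) / Nat.card (Gr N H))) :=
      (tendsto_finsetSum _ fun ψ _ => (h3 ψ).order_lim).div_const _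
    rw [finsum_eq_sum_of_fintype]
    refine h4.congr' ?_
    filter_upwards [eventually_gt_atTop (0 : ℝ)] with T hT
    rw [← hS, SG_one hG hs (cls N H) γ hT, finsum_eq_sum_of_fintype]
    have e1 : ((∑ ψ : Gr N H →* ℂ, Pool.Agent.X287.CR.Su (fun p : Pr N => (p.1 : ℕ))
        (fun p i => ψ (cls N H p) * α p i) 1 γ T) / (Nat.card (Gr N H) : ℂ)).re =
        (∑ ψ : Gr N H →* ℂ, (Pool.Agent.X287.CR.Su (fun p : Pr N => (p.1 : ℕ))
        (fun p i => ψ (cls N H p) * α p i) 1 γ T).re) / (Nat.card (Gr N H) : ℝ) := by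
      rw [← Complex.ofReal_natCast, Complex.div_ofReal_re, Complex.re_sum]
    rw [e1, ← Finset.sum_div]
    ring
  · have hz : ∀ ψ, 0 ≤ m ψ ∧ (L ψ 1 ≠ 0 ↔ m ψ = 0) := by
      intro ψ
      obtain ⟨h4, h5, h6⟩ := Pool.Agent.X287.CR.value (hL ψ).holo (h1 ψ) (h2 ψ)
      refine ⟨h4, ⟨fun h7 => ?_, fun h7 => ?_⟩⟩
      · by_contra h8
        exact h7 (h6 h8)
      · rw [h5 h7]
        exact Complex.exp_ne_zero _
    have hcard : (0 : ℝ) < Nat.card (Gr N H) := by exact_mod_cast Nat.card_pos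
    have hre : ∀ T : ℝ, 0 < T → (S N H α γ T 1).re =
        (∑ ψ : Gr N H →* ℂ, (Pool.Agent.X287.CR.Su (fun p : Pr N => (p.1 : ℕ))
        (fun p i => ψ (cls N H p) * α p i) 1 γ T).re) / (Nat.card (Gr N H) : ℝ) := by
      intro T hT
      rw [← hS, SG_one hG hs (cls N H) γ hT, finsum_eq_sum_of_fintype, ← Complex.ofReal_natCast,
        Complex.div_ofReal_re, Complex.re_sum]
    constructor
    · intro h4
      have h5 : ∀ ψ : Gr N H →* ℂ, ∃ C : ℝ, ∀ᶠ T : ℝ in atTop, |(Pool.Agent.X287.CR.Su (fun p : Pr N => (p.1 : ℕ))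
        (fun p i => ψ (cls N H p) * α p i) 1 γ T).re| ≤ C := fun ψ => (h3 ψ).zero_iff.1 ((hz ψ).2.1 (h4 ψ))
      choose C hC using h5
      refine ⟨(∑ ψ, C ψ) / Nat.card (Gr N H), ?_⟩
      filter_upwards [eventually_all.2 hC, eventually_gt_atTop (0 : ℝ)] with T hT hT0
      rw [hre T hT0]
      gcongr with ψ
      exact (le_abs_self _).trans (hT ψ)
    · rintro ⟨C, hC⟩ ψ
      rw [(hz ψ).2]
      by_contra h0
      have hpos : 0 < (∑ φ, (m φ : ℝ)) / Nat.card (Gr N H) := by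
        refine div_pos (Finset.sum_pos' (fun φ _ => by exact_mod_cast (hz φ).1)
          ⟨ψ, Finset.mem_univ ψ, ?_⟩) hcard
        have : 0 < m ψ := lt_of_le_of_ne (hz ψ).1 (Ne.symm h0)
        exact_mod_cast this
      have hlim : Tendsto (fun T : ℝ => (S N H α γ T 1).re / Real.log T) atTop
          (𝓝 ((∑ φ, (m φ : ℝ)) / Nat.card (Gr N H))) := by
        have h4 : Tendsto (fun T : ℝ => (∑ ψ : Gr N H →* ℂ,
            (Pool.Agent.X287.CR.Su (fun p : Pr N => (p.1 : ℕ)) (fun p i => ψ (cls N H p) * α p i) 1 γ T).re /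
              Real.log T) / Nat.card (Gr N H)) atTop (𝓝 ((∑ ψ, (m ψ : ℝ)) / Nat.card (Gr N H))) :=
          (tendsto_finsetSum _ fun ψ _ => (h3 ψ).order_lim).div_const _
        refine h4.congr' ?_
        filter_upwards [eventually_gt_atTop (0 : ℝ)] with T hT
        rw [hre T hT, ← Finset.sum_div]
        ring
      have htop : Tendsto (fun T : ℝ => (S N H α γ T 1).re) atTop atTop := by
        have h7 := hlim.pos_mul_atTop hpos Real.tendsto_log_atTop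
        refine h7.congr' ?_
        filter_upwards [eventually_gt_atTop (1 : ℝ)] with T hT
        have : Real.log T ≠ 0 := (Real.log_pos hT).ne'
        field_simp
      obtain ⟨T, h8, h9⟩ := (hC.and (htop.eventually_gt_atTop C)).exists
      linarith

end Pool.Agent.Results.MP_21281f_nt.RationalityInGroupRing
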