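import Pool.Agent.X218.TP.Fin2

/-!
# Deligne's period conjecture for the twists of the abelian varieties `X_0(14) ⊗ M` by characters of
# 2-power order, with units at 2 as algebraic parts

`E` is the modular curve `X_0(14)`, `y² + x y + y = x³ + 4 x - 6`, `K` a field of odd degree in the
`q`-th cyclotomic field, `q` a power of a prime, and `M = ℤ^g` a lattice with an action of
`G = Gal(K/ℚ)` and `M^G = 0`.  `A = E ⊗ M` is the abelian variety over `ℚ` of dimension `g` whose points
over the algebraic closure are `E ⊗ M = E^g`, with the Galois group acting on `E` and on `M`; it is the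
variety obtained from `E^g` by the descent datum `ρ`, the action of `G` on `M`.  (For example the kernel
of the norm from the restriction of scalars of `E` to `E`.)  As `K` is totally real,
`A(ℝ) = E(ℝ) ⊗ M`, and `Ω_A⁺` is the `g`-th power of the real period of `E`, up to a power of the prime
that divides `q`.

Let `ψ` be a primitive character of conductor `d` and of order a power of 2; for even `ψ` the field of
`ψ` is totally real and tamely ramified, with conductor `d`.  The `L`-function `L_C(A, ψ, s)` is the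
Euler product over the primes which do not divide `d`; its factor at `p` is
`det (1 - a_p ψ(p) p^(-s) ρ(p) + ψ(p)² p^(1 - 2 s) ρ(p)²)⁻¹`, without the last term for `p = 2`, `7`, and it
is `1` at the prime that divides `q`, where `A` has potentially good reduction and `M` has no vectors
that are fixed by the inertia group.

We show, for all `M` and `ψ` such that the Frobenius automorphisms at the primes `p ∣ d` have no fixed
vectors in `M`, that the function `L_C(A, ψ, s)` is entire, and that

`τ(ψ⁻¹)^g L_C(A, ψ, 1) = Ω^g x(ψ)`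

where `τ` is the Gauss sum, `Ω` the real period of `E` for even `ψ` (this is the case of the problem,
`Ω^g ∼ Ω_A⁺`), and `i` times the imaginary period for odd `ψ`, and

* `x(σ ψ) = σ(x(ψ))` for all the embeddings `σ` of `ℂ` in `ℂ`; so `x(ψ)` is in `ℚ(ψ)` and this is the
  equivariance (ii) of the problem;
* `x(ψ)` is a unit at all the primes above `2`; in particular `L_C(A, ψ, 1) ≠ 0`.

Here `q` is a power of `3` (then `K` is a layer of the cyclotomic `ℤ₃`-extension and there is no
condition on `K`), or the narrow class number of `K` is odd and the Frobenius automorphisms at `2` and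
`7` have no fixed vectors in `M`.
-/

set_option autoImplicit false

open NumberField MeasureTheory IsCyclotomicExtension.Rat

namespace Pool.Agent.Results.MP_21281f_nt.UnitsAtTwoForTwists

open scoped Classical

open Pool.Agent.Y682 (NCl)

/-- The modular curve `X_0(14)`, `y² + x y + y = x³ + 4 x - 6`, over the ring `R`. -/
def curve (R : Type) [CommRing R] : WeierstrassCurve R := ⟨1, 0, 1, 4, -6⟩

/-- `a_p = p + 1 - #E(𝔽_p)`, that is `p` minus the number of the affine points. -/
noncomputable def a (p : ℕ) : ℤ :=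
  p - Nat.card {P : ZMod p × ZMod p // (curve (ZMod p)).toAffine.Equation P.1 P.2}

/-- `4 x³ + x² + 18 x - 23 = (2 y + x + 1)²` -/
def cubic (x : ℝ) : ℝ := 4 * x ^ 3 + x ^ 2 + 18 * x - 23

/-- The real period `∫_{E(ℝ)} |ω|`, `ω = dx / (2 y + x + 1)`, as an integral over `x`: two real points
lie over each `x` with `cubic x > 0`. -/
noncomputable def realPeriod : ℝ := 2 * ∫ x in {x : ℝ | 0 < cubic x}, 1 / √(cubic x)

/-- The imaginary period (divided by `i`), the integral over the points with real `x` and imaginary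
`2 y + x + 1`. -/
noncomputable def imagPeriod : ℝ := 2 * ∫ x in {x : ℝ | cubic x < 0}, 1 / √(-cubic x)

/-- The period `Ω`: the real period for an even character, `i` times the imaginary period for an odd
character. -/
noncomputable def period {d : ℕ} (ψ : DirichletCharacter ℂ d) : ℂ :=
  if ψ (-1) = 1 then (realPeriod : ℂ) else Complex.I * imagPeriod

section lattice

variable {q g d : ℕ} (ρ : (ZMod q)ˣ →* GL (Fin g) ℤ) (ψ : DirichletCharacter ℂ d)

/-- The matrix `ρ(p)` of the Frobenius automorphism at a prime `p` that does not divide `q`; zero if `p`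
divides `q`. -/
noncomputable def frob (p : ℕ) : Matrix (Fin g) (Fin g) ℂ :=
  if h : p.Coprime q then (ρ (ZMod.unitOfCoprime p h) : Matrix (Fin g) (Fin g) ℤ).map
    (Int.cast : ℤ → ℂ) else 0

/-- The factor at `p` of the `L`-function of the twist of `A = E ⊗ M` by `ψ`,
`det (1 - a_p ψ(p) p^(-s) ρ(p) + ψ(p)² p^(1 - 2 s) ρ(p)²)⁻¹`, without the last term for `p = 2`, `7`.
It is `1` for the primes `p` that divide `d` or `q`. -/
noncomputable def factor (p : ℕ) (s : ℂ) : ℂ :=
  (1 - ((a p : ℂ) * ψ (p : ZMod d) * (p : ℂ) ^ (-s)) • frob ρ p +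
    ((if p ∣ 14 then 0 else (p : ℂ)) * ψ (p : ZMod d) ^ 2 * (p : ℂ) ^ (-2 * s)) •
      frob ρ p ^ 2).det⁻¹

/-- `x` is the algebraic part of the value at `s = 1` of the `L`-function of the twist of `A` by `ψ`:
`τ(ψ⁻¹)^g L(1) = Ω^g x`, where `L` is the entire function equal to the Euler product for
`Re s > 3/2`. -/
def IsAlgebraicPart [NeZero d] (x : ℂ) : Prop :=
  ∃ L : ℂ → ℂ, Differentiable ℂ L ∧
    (∀ s : ℂ, 3 / 2 < s.re → HasProd (fun p : Nat.Primes => factor ρ ψ p s) (L s)) ∧
    gaussSum ψ⁻¹ (ZMod.stdAddChar (N := d)) ^ g * L 1 = period ψ ^ g * x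

/-- The Frobenius automorphism at `p` (not dividing `q`) fixes no vector of `M` except zero. -/
def NoFixedVectors (p : ℕ) : Prop :=
  ∀ u : (ZMod q)ˣ, (u : ZMod q) = (p : ZMod q) → ∀ v : Fin g → ℤ,
    (ρ u : Matrix (Fin g) (Fin g) ℤ).mulVec v = v → v = 0

end lattice

/-- The algebraic number `x` is a unit at all the primes above `2`: for some odd integer `m` the number
`m x` is an algebraic integer, and prime to `2` in the ring of the algebraic integers. -/
def UnitAtTwo (x : ℂ) : Prop :=
  ∃ m : ℤ, Odd m ∧ IsIntegral ℤ (m * x) ∧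
    ∃ u v : ℂ, IsIntegral ℤ u ∧ IsIntegral ℤ v ∧ u * (m * x) + 2 * v = 1

/-- **Main theorem.** Let `q` be a power of a prime, prime to `14`, and let `K` be a subfield of odd
degree of the `q`-th cyclotomic field `F`.  Let `ρ` be an action of `(ℤ/q)ˣ = Gal(F/ℚ)` on `M = ℤ^g` which
is trivial on `Gal(F/K)` and has no fixed vectors except zero.  Let `q` be a power of `3`, or let the
narrow class number of `K` be odd and let the Frobenius automorphisms at `2` and `7` have no fixed
vectors in `M` except zero.  There are numbers `x(ψ)` such that for all primitive characters `ψ` of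
2-power order and squarefree conductor `d`, where the primes `p ∣ d` do not divide `14 q` and the
Frobenius automorphisms at these `p` have no fixed vectors in `M` except zero: `x(ψ)` is the algebraic
part of the value at `1` of the `L`-function of the twist of `A = E ⊗ M` by `ψ`, `x(σψ) = σ(x(ψ))` for all
the embeddings `σ` of `ℂ` in `ℂ`, and `x(ψ)` is a unit at all the primes above `2`. -/
theorem result (q : ℕ) [NeZero q] (hq : IsPrimePow q) (hco : q.Coprime 14)
    (F : Type) [Field F] [NumberField F] [IsCyclotomicExtension {q} ℚ F]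
    (K : IntermediateField ℚ F) (hodd : Odd (Module.finrank ℚ K))
    (g : ℕ) (ρ : (ZMod q)ˣ →* GL (Fin g) ℤ)
    (htriv : ∀ σ ∈ K.fixingSubgroup, ρ (galEquivZMod q F σ) = 1)
    (hfix : ∀ v : Fin g → ℤ, (∀ u, (ρ u : Matrix (Fin g) (Fin g) ℤ).mulVec v = v) → v = 0)
    (hcl : 3 ∣ q ∨ (Odd (Nat.card (NCl K)) ∧ NoFixedVectors ρ 2 ∧ NoFixedVectors ρ 7)) :
    ∃ x : (d : ℕ) → DirichletCharacter ℂ d → ℂ, ∀ (d : ℕ) [NeZero d] (ψ : DirichletCharacter ℂ d),
      ψ.IsPrimitive → Squarefree d → (∃ n : ℕ, ψ ^ 2 ^ n = 1) →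
      (∀ p : ℕ, p.Prime → p ∣ d → ¬ p ∣ 14 * q ∧ NoFixedVectors ρ p) →
      IsAlgebraicPart ρ ψ (x d ψ) ∧ (∀ σ : ℂ →+* ℂ, x d (ψ.ringHomComp σ) = σ (x d ψ)) ∧
        UnitAtTwo (x d ψ) := by
  obtain ⟨x, hx⟩ := Pool.Agent.X218.TP.lat q hq hco F K hodd ρ (by
    intro u hu
    rw [Pool.Agent.Y682.XT.mem_HH] at hu
    have := htriv _ hu
    rwa [MulEquiv.apply_symm_apply] at this) hfix (by
    rcases hcl with h | ⟨h1, h2, h7⟩
    · exact Or.inl h
    · refine Or.inr ⟨h1, fun u hu => ?_⟩
      rcases hu with hu | hu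
      · exact h2 u (by rw [hu]; norm_num)
      · exact h7 u (by rw [hu]; norm_num))
  refine ⟨x, fun d _ ψ hψ hd hn hp => ?_⟩
  obtain ⟨⟨L, hL, hE, hv⟩, hσ, m, hm, hU⟩ := hx d ψ hψ hd hn hp
  refine ⟨⟨L, hL, fun s hs => ?_, hv⟩, hσ, m, hm, hU.1, hU.2⟩
  have hap : ∀ p : ℕ, a p = Pool.Agent.W97.MT.ap Pool.Agent.W97.MT.E14 p := by
    intro p
    have hE : curve (ZMod p) = Pool.Agent.W97.MT.E14.map (Int.castRingHom (ZMod p)) := by
      simp only [curve, Pool.Agent.W97.MT.E14, WeierstrassCurve.map, eq_intCast]
      push_cast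
      rfl
    unfold a
    rw [hE]
    rfl
  refine (hE s hs).congr_fun fun p => ?_
  unfold factor frob Pool.Agent.X218.TP.EF
  rw [hap]
  by_cases h : (p : ℕ).Coprime q
  · rw [dif_pos h, dif_pos h]
  · rw [dif_neg h, dif_neg h, smul_zero, sub_zero, zero_pow two_ne_zero, smul_zero, add_zero,
      Matrix.det_one, inv_one]

end Pool.Agent.Results.MP_21281f_nt.UnitsAtTwoForTwists
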